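import Pool.Agent.Helper24.Cusp.Generic
import Pool.Agent.Helper98.Cusp.Step

/-! Packet C4: the generic step. -/

namespace Pool.Agent.Helper16.Cusp

open MvPolynomial

theorem generic_step {F : R} {D κ T τ : ℕ} (hF : Lev F D κ T (fun _ => True))
    (hz : TZ F τ (fun _ => True)) :
    ∃ lam : ℂ, Lev (pull lam 0 F) (3 * D) (9 * κ + 6 * T + 3 * τ) (3 * T) (fun _ => True) := by
  obtain ⟨S, l, hF', hz', hQ, hs⟩ := generic_param hF hz
  exact ⟨l, step hF' hz' hQ hs⟩

end Pool.Agent.Helper16.Cusp
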