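import Pool.Agent.Helper16.Cusp.Loc

/-! Packet C4: the generic parameter. -/

namespace Pool.Agent.Helper16.Cusp

open MvPolynomial

namespace Gen

lemma om_pow : om ^ 3 = 1 := by
  unfold om
  rw [← Complex.exp_nat_mul]
  have : ((3 : ℕ) : ℂ) * (2 * Real.pi * Complex.I / 3) = 2 * Real.pi * Complex.I := by
    push_cast; ring
  rw [this, Complex.exp_two_pi_mul_I]

lemma om_sq_ne : om ^ 2 ≠ 1 := by
  intro h
  have h3 := om_pow
  have h1 : om = 1 := by
    have : om ^ 3 = om ^ 2 * om := by ring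
    rw [h3, h] at this
    simpa using this.symm
  unfold om at h1
  rw [Complex.exp_eq_one_iff] at h1
  obtain ⟨n, hn⟩ := h1
  have hpi : (2 * Real.pi * Complex.I : ℂ) ≠ 0 := by
    simp [Real.pi_ne_zero, Complex.I_ne_zero]
  have h2 : (1 : ℂ) / 3 = n := by
    have : (2 * Real.pi * Complex.I : ℂ) * (1 / 3) = (2 * Real.pi * Complex.I) * n := by
      rw [mul_comm _ (n : ℂ), ← hn]; ring
    exact mul_left_cancel₀ hpi this
  have h4 : (1 : ℂ) = ((3 * n : ℤ) : ℂ) := by
    push_cast; rw [← h2]; norm_num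
  have h5 : (1 : ℤ) = 3 * n := by exact_mod_cast h4
  omega

lemma eval_smul_homog {F : R} {d : ℕ} (hF : F.IsHomogeneous d) (t : ℂ) (x : V) :
    eval (t • x) F = t ^ d * eval x F := by
  rw [eval_eq, eval_eq, Finset.mul_sum]
  apply Finset.sum_congr rfl
  intro s hs
  have h := hF.degree_eq_sum_deg_support hs
  simp only [Pi.smul_apply, smul_eq_mul, mul_pow, Finset.prod_mul_distrib, Finset.prod_pow_eq_pow_sum]
  rw [h]
  ring

lemma finite_roots (p : Polynomial ℂ) (hp : p ≠ 0) : {x : ℂ | p.eval x = 0}.Finite := by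
  have : {x : ℂ | p.eval x = 0} ⊆ (p.roots.toFinset : Set ℂ) := by
    intro x hx
    simp only [Finset.mem_coe, Multiset.mem_toFinset, Polynomial.mem_roots hp]
    exact hx
  exact (Finset.finite_toSet _).subset this

lemma finite_cube (a : ℂ) : {x : ℂ | x ^ 3 = a}.Finite := by
  have h := finite_roots (Polynomial.X ^ 3 - Polynomial.C a) (Polynomial.X_pow_sub_C_ne_zero (by norm_num) a)
  refine h.subset ?_
  intro x hx
  simp only [Set.mem_ofPred_eq] at hx ⊢
  simp [hx]

lemma finite_lin (A B : ℂ) (h : A ≠ 0 ∨ B ≠ 0) : {x : ℂ | x ^ 3 * A = B}.Finite := by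
  by_cases hA : A = 0
  · have hB : B ≠ 0 := by tauto
    have : {x : ℂ | x ^ 3 * A = B} = ∅ := by
      ext x
      simp only [Set.mem_ofPred_eq, Set.mem_empty_iff_false, iff_false, hA, mul_zero]
      exact fun h => hB h.symm
    rw [this]; exact Set.finite_empty
  · refine (finite_cube (B / A)).subset ?_
    intro x hx
    simp only [Set.mem_ofPred_eq] at hx ⊢
    rw [← hx]; field_simp

/-- for one point only finitely many parameters are bad -/
lemma finite_bad (v : V) (hv : v 0 = v 1 → v 2 ≠ 0) :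
    {l : ℂ | ∃ v' : V, phi l 0 v' = v ∧ v' 2 = 0}.Finite := by
  have h0 := finite_cube (v 0)
  have h1 := finite_cube (v 1)
  have key : {l : ℂ | ∃ v' : V, phi l 0 v' = v ∧ v' 2 = 0} ⊆
      ⋃ x ∈ {x : ℂ | x ^ 3 = v 0}, ⋃ y ∈ {x : ℂ | x ^ 3 = v 1},
        {l : ℂ | l ^ 3 * (x - y) ^ 3 = (1 - om ^ 2) ^ 3 * v 2} := by
    rintro l ⟨v', hv', h2⟩
    have e0 : (v' 0 + om * v' 1) ^ 3 = v 0 := by
      rw [← hv']; simp [phi, lin]
    have e1 : (om ^ 2 * v' 0 + om * v' 1) ^ 3 = v 1 := by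
      rw [← hv']; simp [phi, lin]
    have e2 : (v' 2 + l * v' 0) ^ 3 = v 2 := by
      rw [← hv']; simp [phi, lin]
    simp only [Set.mem_iUnion, Set.mem_ofPred_eq, exists_prop]
    refine ⟨_, e0, _, e1, ?_⟩
    rw [← e2, h2]
    ring
  refine Set.Finite.subset ?_ key
  refine h0.biUnion fun x hx => h1.biUnion fun y hy => ?_
  apply finite_lin
  by_cases hxy : x = y
  · right
    have : v 0 = v 1 := by
      rw [← hx, ← hy, hxy]
    have hn := hv this
    have := om_sq_ne
    have h1 : (1 - om ^ 2) ≠ 0 := sub_ne_zero.mpr this.symm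
    positivity
  · left
    exact pow_ne_zero _ (sub_ne_zero.mpr hxy)

lemma finite_bad2 {F : R} {D : ℕ} (hF : F.IsHomogeneous D) (h001 : eval ![0, 0, 1] F ≠ 0) :
    {l : ℂ | eval ![-1, -1, (l + 0) ^ 3] F = 0}.Finite := by
  let f : Polynomial ℂ := aeval ![(-1 : Polynomial ℂ), -1, Polynomial.X ^ 3] F
  let g : Polynomial ℂ := aeval ![-(Polynomial.X : Polynomial ℂ), -Polynomial.X, 1] F
  have hf : ∀ l : ℂ, f.eval l = eval ![-1, -1, l ^ 3] F := by
    intro l
    have : (Polynomial.aeval l).comp (aeval ![(-1 : Polynomial ℂ), -1, Polynomial.X ^ 3]) =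
        (aeval ![(-1 : ℂ), -1, l ^ 3] : R →ₐ[ℂ] ℂ) := by
      apply MvPolynomial.algHom_ext
      intro i
      fin_cases i <;> simp
    have h := DFunLike.congr_fun this F
    rw [AlgHom.comp_apply, Polynomial.coe_aeval_eq_eval] at h
    rw [MvPolynomial.aeval_eq_eval] at h
    exact h
  have hg : ∀ l : ℂ, g.eval l = eval ![-l, -l, 1] F := by
    intro l
    have : (Polynomial.aeval l).comp (aeval ![-(Polynomial.X : Polynomial ℂ), -Polynomial.X, 1]) =
        (aeval ![-l, -l, 1] : R →ₐ[ℂ] ℂ) := by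
      apply MvPolynomial.algHom_ext
      intro i
      fin_cases i <;> simp
    have h := DFunLike.congr_fun this F
    rw [AlgHom.comp_apply, Polynomial.coe_aeval_eq_eval] at h
    rw [MvPolynomial.aeval_eq_eval] at h
    exact h
  have hfne : f ≠ 0 := by
    intro h0
    have hg0 : g = 0 := by
      apply Polynomial.eq_zero_of_infinite_isRoot
      refine Set.Infinite.mono ?_ (Set.finite_singleton (0 : ℂ)).infinite_compl
      intro s hs
      have hs0 : s ≠ 0 := by simpa using hs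
      obtain ⟨l, hl⟩ := IsAlgClosed.exists_pow_nat_eq (s⁻¹) (n := 3) (by norm_num)
      have h1 := hf l
      rw [h0, hl] at h1
      have h2 : (![-s, -s, 1] : V) = s • ![-1, -1, s⁻¹] := by
        ext i; fin_cases i <;> simp [hs0]
      show g.eval s = 0
      rw [hg, h2, eval_smul_homog hF, ← h1]
      simp
    have := hg 0
    rw [hg0] at this
    apply h001
    simpa using this.symm
  refine (finite_roots f hfne).subset ?_
  intro l hl
  simp only [Set.mem_ofPred_eq, add_zero] at hl ⊢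
  rw [hf, hl]

end Gen

/-- A parameter `lam` satisfying the hypotheses of `step` for a finite set `S` containing all the
known special points. -/
theorem generic_param {F : R} {D κ T τ : ℕ} (hF : Lev F D κ T (fun _ => True))
    (hz : TZ F τ (fun _ => True)) :
    ∃ (S : Set V) (lam : ℂ), Lev F D κ T (fun v => v ∈ S) ∧ TZ F τ (fun v => v ∈ S) ∧
      (∀ v v' : V, v ∈ S → phi lam 0 v' = v → v' 2 ≠ 0 ∧ True) ∧
      eval ![-1, -1, (lam + 0) ^ 3] F ≠ 0 := by
  obtain ⟨cc, hcc, hc⟩ := hF.cusp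
  obtain ⟨cx, hcx, hx⟩ := hF.tx
  obtain ⟨cy, hcy, hy⟩ := hF.ty
  obtain ⟨cd, hcd, hd⟩ := hF.td
  obtain ⟨cz, hcz, hzz⟩ := hz
  let S : Set V := Set.range cc ∪ Set.range cx ∪ Set.range cy ∪ Set.range cd ∪ Set.range cz
  have hS : S.Finite := (((Set.finite_range cc).union (Set.finite_range cx)).union
    (Set.finite_range cy) |>.union (Set.finite_range cd)).union (Set.finite_range cz)
  have hSv : ∀ v ∈ S, v 0 = v 1 → v 2 ≠ 0 := by
    rintro v ((((⟨i, rfl⟩ | ⟨i, rfl⟩) | ⟨i, rfl⟩) | ⟨i, rfl⟩) | ⟨i, rfl⟩) h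
    · exact absurd h (hc i).2.2.2.2.1
    · have := hx i
      exact absurd (h ▸ this.2.1) this.2.2.1
    · have := hy i
      exact absurd (h.trans this.2.2.1) this.2.1
    · exact (hd i).2.2.2.1
    · exact absurd h (hzz i).2.2.2.2.1
  have hF' : Lev F D κ T (fun v => v ∈ S) :=
    { homog := hF.homog
      smooth := hF.smooth
      cusp := ⟨cc, hcc, fun i => by
        have := hc i
        refine ⟨this.1, this.2.1, this.2.2.1, this.2.2.2.1, this.2.2.2.2.1, ?_⟩
        exact Or.inl (Or.inl (Or.inl (Or.inl ⟨i, rfl⟩)))⟩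
      tx := ⟨cx, hcx, fun i => by
        have := hx i
        refine ⟨this.1, this.2.1, this.2.2.1, this.2.2.2.1, ?_⟩
        exact Or.inl (Or.inl (Or.inl (Or.inr ⟨i, rfl⟩)))⟩
      ty := ⟨cy, hcy, fun i => by
        have := hy i
        refine ⟨this.1, this.2.1, this.2.2.1, this.2.2.2.1, ?_⟩
        exact Or.inl (Or.inl (Or.inr ⟨i, rfl⟩))⟩
      td := ⟨cd, hcd, fun i => by
        have := hd i
        refine ⟨this.1, this.2.1, this.2.2.1, this.2.2.2.1, this.2.2.2.2.1, ?_⟩
        exact Or.inl (Or.inr ⟨i, rfl⟩)⟩ }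
  have hz' : TZ F τ (fun v => v ∈ S) := ⟨cz, hcz, fun i => by
    have := hzz i
    refine ⟨this.1, this.2.1, this.2.2.1, this.2.2.2.1, this.2.2.2.2.1, ?_⟩
    exact Or.inr ⟨i, rfl⟩⟩
  have h001 : eval ![0, 0, 1] F ≠ 0 := by
    intro h
    have h1 := hF.smooth ![0, 0, 1] (by
      intro h; have := congrFun h 2; simp at this) (by simp) h
    exact h1.1 (by simp)
  have hB1 : (⋃ v ∈ S, {l : ℂ | ∃ v' : V, phi l 0 v' = v ∧ v' 2 = 0}).Finite :=
    hS.biUnion fun v hv => Gen.finite_bad v (hSv v hv)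
  have hB2 := Gen.finite_bad2 hF.homog h001
  obtain ⟨l, hl⟩ := (hB1.union hB2).infinite_compl.nonempty
  simp only [Set.mem_compl_iff, Set.mem_union, not_or, Set.mem_iUnion, Set.mem_ofPred_eq,
    exists_prop, not_exists, not_and] at hl
  refine ⟨S, l, hF', hz', ?_, hl.2⟩
  intro v v' hv hv'
  exact ⟨fun h => hl.1 v hv v' hv' h, trivial⟩

end Pool.Agent.Helper16.Cusp
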